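import Pool.Agent.Helper38.RS.Goals3
import Pool.Agent.Helper84.RS.KUM

/-!
# Project RS, packet RS-EUL: the Euler product over the prime ideals
-/

set_option autoImplicit false

namespace Pool.Agent.Helper58.RS

open NumberField Module IsDedekindDomain Filter Topology
open _root_.Pool.Agent.Helper38.RS

section euler

variable {F : Type} [Field F] [NumberField F]

/-- the nonzero ideals all of whose prime factors lie in `S` -/
def IS (S : Finset (HeightOneSpectrum (𝓞 F))) : Set (Ideal (𝓞 F)) :=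
  {J | J ≠ ⊥ ∧ ∀ v : HeightOneSpectrum (𝓞 F), v.asIdeal ∣ J → v ∈ S}

theorem IS_empty : (IS (∅ : Finset (HeightOneSpectrum (𝓞 F)))) = {⊤} := by
  ext J
  constructor
  · rintro ⟨h0, h1⟩
    by_contra hJ
    obtain ⟨M, hM, hle⟩ := Ideal.exists_le_maximal J hJ
    have hM0 : M ≠ ⊥ := by
      rintro rfl
      exact h0 (le_bot_iff.mp hle)
    have h2 := h1 ⟨M, hM.isPrime, hM0⟩ (Ideal.dvd_iff_le.mpr hle)
    simp at h2
  · rintro rfl
    refine ⟨top_ne_bot, fun v hv => ?_⟩
    exact absurd (top_le_iff.mp (Ideal.dvd_iff_le.mp hv)) v.isPrime.ne_top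

theorem decomp (S : Finset (HeightOneSpectrum (𝓞 F))) (v : HeightOneSpectrum (𝓞 F))
    [DecidableEq (HeightOneSpectrum (𝓞 F))] (hv : v ∉ S) :
    ∃ e : ℕ × IS S ≃ IS (insert v S), ∀ n (J : IS S), ((e (n, J) : IS (insert v S)) :
      Ideal (𝓞 F)) = v.asIdeal ^ n * (J : Ideal (𝓞 F)) := by
  have hvp : Prime v.asIdeal := v.prime
  have hnd : ∀ J : IS S, ¬ v.asIdeal ∣ (J : Ideal (𝓞 F)) := fun J h => hv (J.2.2 v h)
  let g : ℕ × IS S → IS (insert v S) := fun x =>
    ⟨v.asIdeal ^ x.1 * (x.2 : Ideal (𝓞 F)), by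
      refine ⟨mul_ne_zero (pow_ne_zero _ v.ne_bot) x.2.2.1, fun w hw => ?_⟩
      rcases (w.prime.dvd_or_dvd hw) with h | h
      · have h1 : w.asIdeal ∣ v.asIdeal := w.prime.dvd_of_dvd_pow h
        have h2 : w.asIdeal = v.asIdeal :=
          associated_iff_eq.mp ((w.prime.irreducible.dvd_irreducible_iff_associated
            hvp.irreducible).mp h1)
        have h3 : w = v := HeightOneSpectrum.ext h2
        rw [h3]
        exact Finset.mem_insert_self _ _
      · exact Finset.mem_insert_of_mem (x.2.2.2 w h)⟩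
  have hinj : Function.Injective g := by
    rintro ⟨n, J⟩ ⟨m, J'⟩ h
    have h1 : v.asIdeal ^ n * (J : Ideal (𝓞 F)) = v.asIdeal ^ m * (J' : Ideal (𝓞 F)) :=
      congrArg Subtype.val h
    have key : ∀ (a b : ℕ) (A B : IS S), a < b →
        v.asIdeal ^ a * (A : Ideal (𝓞 F)) = v.asIdeal ^ b * (B : Ideal (𝓞 F)) → False := by
      intro a b A B hab hh
      obtain ⟨c, rfl⟩ := Nat.exists_eq_add_of_lt hab
      rw [show a + c + 1 = a + (c + 1) by ring, pow_add, mul_assoc] at hh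
      have h4 := mul_left_cancel₀ (pow_ne_zero a v.ne_bot) hh
      apply hnd A
      rw [h4, pow_succ', mul_assoc]
      exact dvd_mul_right _ _
    rcases lt_trichotomy n m with h2 | h2 | h2
    · exact (key _ _ _ _ h2 h1).elim
    · subst h2
      have h4 := mul_left_cancel₀ (pow_ne_zero n v.ne_bot) h1
      rw [Subtype.ext h4]
    · exact (key _ _ _ _ h2 h1.symm).elim
  have hsurj : Function.Surjective g := by
    rintro ⟨J, hJ0, hJ⟩
    have hfin : FiniteMultiplicity v.asIdeal J :=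
      FiniteMultiplicity.of_prime_left hvp hJ0
    obtain ⟨c, hc, hc'⟩ := hfin.exists_eq_pow_mul_and_not_dvd
    have hc0 : c ≠ ⊥ := by
      rintro rfl
      apply hJ0
      rw [hc]
      exact mul_zero _
    refine ⟨(multiplicity v.asIdeal J, ⟨c, hc0, fun w hw => ?_⟩), Subtype.ext hc.symm⟩
    have h5 : w ∈ insert v S := hJ w (by rw [hc]; exact hw.mul_left _)
    rcases Finset.mem_insert.mp h5 with h6 | h6
    · subst h6
      exact absurd hw hc'
    · exact h6
  exact ⟨Equiv.ofBijective g ⟨hinj, hsurj⟩, fun n J => rfl⟩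

theorem euler_fin (f : Ideal (𝓞 F) → ℝ) (h1 : f ⊤ = 1) (hm : ∀ I J, f (I * J) = f I * f J)
    (hv : ∀ v : HeightOneSpectrum (𝓞 F), ‖f v.asIdeal‖ < 1)
    (S : Finset (HeightOneSpectrum (𝓞 F))) :
    Summable (fun J : IS S => ‖f J‖) ∧
      HasSum (fun J : IS S => f J) (∏ v ∈ S, (1 - f v.asIdeal)⁻¹) := by
  classical
  induction S using Finset.induction_on with
  | empty =>
    have hU : Unique (IS (∅ : Finset (HeightOneSpectrum (𝓞 F)))) := by
      rw [IS_empty]
      infer_instance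
    have hdef : ∀ J : IS (∅ : Finset (HeightOneSpectrum (𝓞 F))), (J : Ideal (𝓞 F)) = ⊤ := by
      intro J
      exact (IS_empty (F := F)).subset J.2
    refine ⟨Summable.of_finite, ?_⟩
    have h2 : (fun J : IS (∅ : Finset (HeightOneSpectrum (𝓞 F))) => f J) = fun _ => (1 : ℝ) := by
      funext J
      rw [hdef J, h1]
    rw [h2, Finset.prod_empty]
    have h3 := hasSum_unique (fun _ : IS (∅ : Finset (HeightOneSpectrum (𝓞 F))) => (1 : ℝ))
    exact h3
  | insert v S hvS ih =>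
    obtain ⟨e, he⟩ := decomp S v hvS
    obtain ⟨ih1, ih2⟩ := ih
    have hpow : ∀ (n : ℕ) , f (v.asIdeal ^ n) = f v.asIdeal ^ n := by
      intro n
      induction n with
      | zero => rw [pow_zero, pow_zero, Ideal.one_eq_top, h1]
      | succ n ihn => rw [pow_succ, hm, ihn, pow_succ]
    have hfe : ∀ x : ℕ × IS S, f (e x) = f v.asIdeal ^ x.1 * f x.2 := by
      rintro ⟨n, J⟩
      rw [he, hm, hpow]
    have hg : Summable (fun n : ℕ => ‖f v.asIdeal ^ n‖) := by
      simpa [norm_pow] using summable_geometric_of_lt_one (norm_nonneg _) (hv v)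
    have hgs : HasSum (fun n : ℕ => f v.asIdeal ^ n) (1 - f v.asIdeal)⁻¹ :=
      hasSum_geometric_of_norm_lt_one (hv v)
    constructor
    · rw [← e.summable_iff]
      have h2 : ((fun J : IS (insert v S) => ‖f J‖) ∘ e) =
          fun x : ℕ × IS S => ‖f v.asIdeal ^ x.1‖ * ‖f x.2‖ := by
        funext x
        rw [Function.comp_apply, hfe, norm_mul]
      rw [h2]
      exact hg.mul_of_nonneg ih1 (fun _ => norm_nonneg _) (fun _ => norm_nonneg _)
    · rw [← e.hasSum_iff, Finset.prod_insert hvS]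
      have h2 : ((fun J : IS (insert v S) => f J) ∘ e) =
          fun x : ℕ × IS S => f v.asIdeal ^ x.1 * f x.2 := by
        funext x
        rw [Function.comp_apply, hfe]
      rw [h2]
      exact hgs.mul ih2 (summable_mul_of_summable_norm hg ih1)

/-- the prime factors of a nonzero ideal -/
theorem exists_IS (J : Ideal (𝓞 F)) (hJ : J ≠ ⊥) :
    ∃ S : Finset (HeightOneSpectrum (𝓞 F)), ∀ S', S ⊆ S' → J ∈ IS S' := by
  have hfin := Ideal.finite_factors hJ
  refine ⟨hfin.toFinset, fun S' hS' => ⟨hJ, fun v hv => hS' ?_⟩⟩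
  rw [Set.Finite.mem_toFinset]
  exact hv

theorem two_le_norm (v : HeightOneSpectrum (𝓞 F)) : 2 ≤ Ideal.absNorm v.asIdeal := by
  have h1 : Ideal.absNorm v.asIdeal ≠ 1 := by
    intro h
    rw [Ideal.absNorm_eq_one_iff] at h
    exact v.isPrime.ne_top h
  have h0 : Ideal.absNorm v.asIdeal ≠ 0 := by
    intro h
    rw [Ideal.absNorm_eq_zero_iff] at h
    exact v.ne_bot h
  omega

theorem norm_le_half (v : HeightOneSpectrum (𝓞 F)) (s : ℝ) (hs : 1 < s) :
    (Ideal.absNorm v.asIdeal : ℝ) ^ (-s) ≤ 1 / 2 := by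
  have h2 : (2 : ℝ) ≤ (Ideal.absNorm v.asIdeal : ℝ) := by exact_mod_cast two_le_norm v
  calc (Ideal.absNorm v.asIdeal : ℝ) ^ (-s) ≤ (Ideal.absNorm v.asIdeal : ℝ) ^ (-1 : ℝ) :=
        Real.rpow_le_rpow_of_exponent_le (by linarith) (by linarith)
    _ = 1 / (Ideal.absNorm v.asIdeal : ℝ) := by rw [Real.rpow_neg_one, one_div]
    _ ≤ 1 / 2 := by
      apply one_div_le_one_div_of_le (by norm_num) h2

theorem inv_le_exp (x : ℝ) (h0 : 0 ≤ x) (h1 : x ≤ 1 / 2) : (1 - x)⁻¹ ≤ Real.exp (2 * x) := by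
  have h2 : (1 - x)⁻¹ ≤ 1 + 2 * x := by
    rw [inv_le_iff_one_le_mul₀ (by linarith)]
    nlinarith
  have h3 := Real.add_one_le_exp (2 * x)
  linarith

theorem mul_rpow_norm (s : ℝ) (I J : Ideal (𝓞 F)) :
    (Ideal.absNorm (I * J) : ℝ) ^ (-s) =
      (Ideal.absNorm I : ℝ) ^ (-s) * (Ideal.absNorm J : ℝ) ^ (-s) := by
  rw [map_mul, Nat.cast_mul, Real.mul_rpow (by positivity) (by positivity)]

theorem summable_ideals (s : ℝ) (hs : 1 < s) :
    Summable fun J : {J : Ideal (𝓞 F) // J ≠ ⊥} ↦ (Ideal.absNorm J.1 : ℝ) ^ (-s) := by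
  classical
  have hp := _root_.Pool.Agent.Helper84.RS.summable_norm F s hs
  set g : Ideal (𝓞 F) → ℝ := fun J => (Ideal.absNorm J : ℝ) ^ (-s) with hg
  have hg0 : ∀ J, 0 ≤ g J := fun J => by positivity
  have hgt : g ⊤ = 1 := by simp [hg]
  have hgm : ∀ I J, g (I * J) = g I * g J := fun I J => mul_rpow_norm s I J
  have hgv : ∀ v : HeightOneSpectrum (𝓞 F), ‖g v.asIdeal‖ < 1 := by
    intro v
    rw [Real.norm_of_nonneg (hg0 _)]
    have := norm_le_half v s hs
    have h2 : g v.asIdeal ≤ 1 / 2 := this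
    linarith
  apply summable_of_sum_le (c := Real.exp (2 * ∑' v : HeightOneSpectrum (𝓞 F), g v.asIdeal))
  · exact fun J => hg0 _
  · intro T
    choose! S hS using fun J (hJ : J ≠ ⊥) => exists_IS (F := F) J hJ
    set S' : Finset (HeightOneSpectrum (𝓞 F)) := T.biUnion fun J => S J.1 with hS'
    obtain ⟨-, h2⟩ := euler_fin g hgt hgm hgv S'
    have hmem : ∀ J ∈ T, J.1 ∈ IS S' := fun J hJ => hS J.1 J.2 S' (by
      intro w hw
      rw [hS', Finset.mem_biUnion]
      exact ⟨J, hJ, hw⟩)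
    have h3 : ∑ J ∈ T, g J.1 ≤ ∏ v ∈ S', (1 - g v.asIdeal)⁻¹ := by
      rw [← Finset.sum_attach]
      set i : {J // J ∈ T} → IS S' := fun J => ⟨J.1.1, hmem J.1 J.2⟩ with hi
      have hinj : Function.Injective i := by
        intro a b hab
        have : a.1.1 = b.1.1 := by
          have h := congrArg (fun z : IS S' => (z : Ideal (𝓞 F))) hab
          exact h
        exact Subtype.ext (Subtype.ext this)
      have h4 : ∑ J ∈ T.attach, g J.1.1 = ∑ J ∈ T.attach.map ⟨i, hinj⟩, g J := by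
        rw [Finset.sum_map]
        rfl
      rw [h4]
      exact sum_le_hasSum _ (fun J _ => hg0 _) h2
    refine h3.trans ?_
    calc ∏ v ∈ S', (1 - g v.asIdeal)⁻¹ ≤ ∏ v ∈ S', Real.exp (2 * g v.asIdeal) := by
          apply Finset.prod_le_prod
          · intro v _
            rw [inv_nonneg]
            have := norm_le_half v s hs
            have h2 : g v.asIdeal ≤ 1 / 2 := this
            linarith
          · intro v _
            exact inv_le_exp _ (hg0 _) (norm_le_half v s hs)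
      _ = Real.exp (2 * ∑ v ∈ S', g v.asIdeal) := by
          rw [← Real.exp_sum, Finset.mul_sum]
      _ ≤ _ := by
          apply Real.exp_le_exp.mpr
          have := hp.sum_le_tsum S' (fun v _ => hg0 v.asIdeal)
          have h5 : ∑ v ∈ S', g v.asIdeal ≤ ∑' v : HeightOneSpectrum (𝓞 F), g v.asIdeal := this
          linarith

theorem log_bound (a : ℝ) (ha : |a| ≤ 1 / 2) : |Real.log (1 - a)⁻¹ - a| ≤ 2 * a ^ 2 := by
  have h1 := Real.abs_log_sub_add_sum_range_le (x := a) (by linarith) 1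
  rw [Finset.sum_range_one] at h1
  simp only [zero_add, pow_one, Nat.cast_zero, div_one] at h1
  have h2 : |Real.log (1 - a)⁻¹ - a| = |a + Real.log (1 - a)| := by
    rw [Real.log_inv, ← abs_neg]
    congr 1
    ring
  rw [h2]
  refine h1.trans ?_
  rw [div_le_iff₀ (by linarith)]
  have h3 : |a| ^ (1 + 1) = a ^ 2 := by
    rw [show (1 + 1) = 2 by norm_num, sq_abs]
  rw [h3]
  nlinarith [sq_nonneg a]

theorem s_eul_aux (ψ : Ideal (𝓞 F) → ℝ) (hψt : ψ ⊤ = 1)
    (hψm : ∀ I J, ψ (I * J) = ψ I * ψ J) (hψ1 : ∀ I, |ψ I| ≤ 1) (s : ℝ) (hs : 1 < s) :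
    0 < Lf ψ s ∧
    |Real.log (Lf ψ s) - ∑' v : HeightOneSpectrum (𝓞 F),
      ψ v.asIdeal * (Ideal.absNorm v.asIdeal : ℝ) ^ (-s)| ≤
      2 * ∑' v : HeightOneSpectrum (𝓞 F), (Ideal.absNorm v.asIdeal : ℝ) ^ (-(2 : ℝ)) := by
  classical
  have hI := summable_ideals (F := F) s hs
  have hp := _root_.Pool.Agent.Helper84.RS.summable_norm F s hs
  have hp2 := _root_.Pool.Agent.Helper84.RS.summable_norm F 2 (by norm_num)
  set f : Ideal (𝓞 F) → ℝ := fun J => ψ J * (Ideal.absNorm J : ℝ) ^ (-s) with hf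
  have hft : f ⊤ = 1 := by simp [hf, hψt]
  have hfm : ∀ I J, f (I * J) = f I * f J := by
    intro I J
    simp only [hf]
    rw [mul_rpow_norm, hψm]
    ring
  have hfb : ∀ J, |f J| ≤ (Ideal.absNorm J : ℝ) ^ (-s) := by
    intro J
    simp only [hf]
    rw [abs_mul, abs_of_nonneg (show (0 : ℝ) ≤ (Ideal.absNorm J : ℝ) ^ (-s) by positivity)]
    have h0 : (0 : ℝ) ≤ (Ideal.absNorm J : ℝ) ^ (-s) := by positivity
    nlinarith [hψ1 J]
  have hfh : ∀ v : HeightOneSpectrum (𝓞 F), |f v.asIdeal| ≤ 1 / 2 := fun v =>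
    (hfb _).trans (norm_le_half v s hs)
  have hfv : ∀ v : HeightOneSpectrum (𝓞 F), ‖f v.asIdeal‖ < 1 := fun v => by
    rw [Real.norm_eq_abs]
    have := hfh v
    linarith
  have hE := fun S => (euler_fin f hft hfm hfv S).2
  -- convergence of the finite products
  have hlim : Tendsto (fun S : Finset (HeightOneSpectrum (𝓞 F)) =>
      ∏ v ∈ S, (1 - f v.asIdeal)⁻¹) atTop (𝓝 (Lf ψ s)) := by
    have h1 : ∀ S : Finset (HeightOneSpectrum (𝓞 F)), ∏ v ∈ S, (1 - f v.asIdeal)⁻¹ =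
        ∑' J : {J : Ideal (𝓞 F) // J ≠ ⊥}, (IS S).indicator f J.1 := by
      intro S
      have h2 := (hE S).tsum_eq
      rw [← h2]
      have h3 : ∑' J : IS S, f J = ∑' J : Ideal (𝓞 F), (IS S).indicator f J :=
        tsum_subtype (IS S) f
      have h4 : ∑' J : {J : Ideal (𝓞 F) // J ≠ ⊥}, (IS S).indicator f J.1 =
          ∑' J : Ideal (𝓞 F), ({J : Ideal (𝓞 F) | J ≠ ⊥}).indicator ((IS S).indicator f) J :=
        tsum_subtype {J : Ideal (𝓞 F) | J ≠ ⊥} ((IS S).indicator f)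
      rw [h3, h4]
      congr 1
      funext J
      rw [Set.indicator_indicator]
      congr 1
      ext K
      constructor
      · intro hK
        exact ⟨hK.1, hK⟩
      · intro hK
        exact hK.2
    have h5 : (fun S : Finset (HeightOneSpectrum (𝓞 F)) => ∏ v ∈ S, (1 - f v.asIdeal)⁻¹) =
        fun S => ∑' J : {J : Ideal (𝓞 F) // J ≠ ⊥}, (IS S).indicator f J.1 := funext h1
    rw [h5]
    have h6 : Lf ψ s = ∑' J : {J : Ideal (𝓞 F) // J ≠ ⊥}, f J.1 := rfl
    rw [h6]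
    apply tendsto_tsum_of_dominated_convergence hI
    · intro J
      obtain ⟨S₀, hS₀⟩ := exists_IS J.1 J.2
      apply tendsto_const_nhds.congr'
      filter_upwards [eventually_ge_atTop S₀] with S hS
      rw [Set.indicator_of_mem (hS₀ S hS)]
    · refine Eventually.of_forall fun S J => ?_
      rw [Real.norm_eq_abs]
      by_cases hJ : J.1 ∈ IS S
      · rw [Set.indicator_of_mem hJ]
        exact hfb _
      · rw [Set.indicator_of_notMem hJ, abs_zero]
        positivity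
  have hfs : Summable fun v : HeightOneSpectrum (𝓞 F) => f v.asIdeal :=
    Summable.of_norm_bounded hp (fun v => by rw [Real.norm_eq_abs]; exact hfb _)
  have hfabs : Summable fun v : HeightOneSpectrum (𝓞 F) => |f v.asIdeal| :=
    Summable.of_nonneg_of_le (fun _ => abs_nonneg _) (fun v => hfb _) hp
  set C : ℝ := 2 * ∑' v : HeightOneSpectrum (𝓞 F),
    (Ideal.absNorm v.asIdeal : ℝ) ^ (-(2 : ℝ)) with hC
  have hpos : ∀ v : HeightOneSpectrum (𝓞 F), 0 < (1 - f v.asIdeal)⁻¹ := fun v => by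
    rw [inv_pos]
    have := abs_le.mp (hfh v)
    linarith
  have hlogS : ∀ S : Finset (HeightOneSpectrum (𝓞 F)),
      |Real.log (∏ v ∈ S, (1 - f v.asIdeal)⁻¹) - ∑ v ∈ S, f v.asIdeal| ≤ C := by
    intro S
    rw [Real.log_prod (fun v _ => (hpos v).ne'), ← Finset.sum_sub_distrib]
    refine (Finset.abs_sum_le_sum_abs _ _).trans ?_
    have h7 : ∀ v ∈ S, |Real.log (1 - f v.asIdeal)⁻¹ - f v.asIdeal| ≤
        2 * (Ideal.absNorm v.asIdeal : ℝ) ^ (-(2 : ℝ)) := by
      intro v _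
      refine (log_bound _ (hfh v)).trans ?_
      have h8 : f v.asIdeal ^ 2 ≤ (Ideal.absNorm v.asIdeal : ℝ) ^ (-(2 : ℝ)) := by
        have h9 : |f v.asIdeal| ≤ (Ideal.absNorm v.asIdeal : ℝ) ^ (-(1 : ℝ)) := by
          refine (hfb _).trans ?_
          have h2 : (2 : ℝ) ≤ (Ideal.absNorm v.asIdeal : ℝ) := by exact_mod_cast two_le_norm v
          exact Real.rpow_le_rpow_of_exponent_le (by linarith) (by linarith)
        have h10 : (Ideal.absNorm v.asIdeal : ℝ) ^ (-(2 : ℝ)) =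
            ((Ideal.absNorm v.asIdeal : ℝ) ^ (-(1 : ℝ))) ^ 2 := by
          rw [← Real.rpow_natCast, ← Real.rpow_mul (by positivity)]
          norm_num
        rw [h10, ← sq_abs]
        exact pow_le_pow_left₀ (abs_nonneg _) h9 2
      linarith
    refine (Finset.sum_le_sum h7).trans ?_
    rw [← Finset.mul_sum, hC]
    have h11 := hp2.sum_le_tsum S (fun v _ => by positivity)
    linarith
  set B : ℝ := ∑' v : HeightOneSpectrum (𝓞 F), |f v.asIdeal| with hB
  have hlow : ∀ S : Finset (HeightOneSpectrum (𝓞 F)),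
      Real.exp (-B - C) ≤ ∏ v ∈ S, (1 - f v.asIdeal)⁻¹ := by
    intro S
    have hP : 0 < ∏ v ∈ S, (1 - f v.asIdeal)⁻¹ := Finset.prod_pos fun v _ => hpos v
    rw [← Real.le_log_iff_exp_le hP]
    have h12 := (abs_le.mp (hlogS S)).1
    have h13 : -B ≤ ∑ v ∈ S, f v.asIdeal := by
      have h14 : ∑ v ∈ S, |f v.asIdeal| ≤ B := hfabs.sum_le_tsum S (fun v _ => abs_nonneg _)
      have h15 := Finset.abs_sum_le_sum_abs (fun v : HeightOneSpectrum (𝓞 F) => f v.asIdeal) S
      have h16 := neg_abs_le (∑ v ∈ S, f v.asIdeal)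
      linarith
    linarith
  have hLpos : 0 < Lf ψ s :=
    lt_of_lt_of_le (Real.exp_pos _) (ge_of_tendsto hlim (Eventually.of_forall hlow))
  refine ⟨hLpos, ?_⟩
  have h17 : Tendsto (fun S : Finset (HeightOneSpectrum (𝓞 F)) =>
      |Real.log (∏ v ∈ S, (1 - f v.asIdeal)⁻¹) - ∑ v ∈ S, f v.asIdeal|) atTop
      (𝓝 |Real.log (Lf ψ s) - ∑' v : HeightOneSpectrum (𝓞 F), f v.asIdeal|) := by
    apply Tendsto.abs
    exact (hlim.log hLpos.ne').sub hfs.hasSum
  exact le_of_tendsto h17 (Eventually.of_forall hlogS)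

end euler

theorem s_eul : S_EUL := by
  intro F _ _
  refine ⟨2 * ∑' v : HeightOneSpectrum (𝓞 F), (Ideal.absNorm v.asIdeal : ℝ) ^ (-(2 : ℝ)), ?_⟩
  intro ψ h1 h2 h3 s hs
  obtain ⟨h4, h5⟩ := s_eul_aux ψ h1 h2 h3 s hs
  exact ⟨summable_ideals s hs, h4, h5⟩

end Pool.Agent.Helper58.RS
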